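import Mathlib
import Pool.Agent.R289.Kron2
import Pool.Agent.H826R2.Wein.Act

/-! Integer vectors near a real line in three-space. -/

open Matrix

namespace Pool.Agent.N665.TT

lemma near2 {ω : Fin 2 → ℝ} (hω : ∀ n : Fin 2 → ℤ, ∀ m : ℤ, ∑ i, (n i : ℝ) * ω i = m → n = 0)
    (x : Fin 2 → ℝ) {ε : ℝ} (hε : 0 < ε) :
    ∃ (k : ℕ) (m : Fin 2 → ℤ), ∀ i, |(k : ℝ) * ω i - m i - x i| < ε := by
  have hU : IsOpen (Set.pi Set.univ fun j : Fin 2 =>
      ((fun s : ℝ => (s : UnitAddCircle)) '' Set.Ioo (x j - ε) (x j + ε))) :=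
    isOpen_set_pi Set.finite_univ fun j _ => QuotientAddGroup.isOpenMap_coe _ isOpen_Ioo
  obtain ⟨k, hk⟩ := Pool.Agent.R289.Kron2.kronecker hω hU (x := fun j => ((x j : ℝ) : UnitAddCircle))
    (fun j _ => ⟨_, ⟨by linarith, by linarith⟩, rfl⟩)
  have key : ∀ j, ∃ m : ℤ, |(k : ℝ) * ω j - m - x j| < ε := by
    intro j
    obtain ⟨s, ⟨hs1, hs2⟩, hs⟩ := hk j (Set.mem_univ j)
    have hs' : ((s : ℝ) : UnitAddCircle) = ((k * ω j : ℝ) : UnitAddCircle) := hs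
    have h0 : (((k * ω j - s : ℝ)) : UnitAddCircle) = 0 := by
      rw [AddCircle.coe_sub, hs', sub_self]
    obtain ⟨m, hm⟩ := (AddCircle.coe_eq_zero_iff (p := (1 : ℝ))).1 h0
    refine ⟨m, ?_⟩
    rw [zsmul_eq_mul, mul_one] at hm
    rw [abs_lt]
    constructor <;> linarith
  choose m hm using key
  exact ⟨k, m, hm⟩

/-- Kronecker's theorem in a plane without integer vectors -/
theorem kron3 {κ c : Fin 3 → ℝ}
    (hno : ∀ w : Fin 3 → ℤ, w ≠ 0 → (fun i => (w i : ℝ)) ⬝ᵥ crossProduct κ c ≠ 0)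
    (X Y : ℝ) {ε : ℝ} (hε : 0 < ε) :
    ∃ ν : Fin 3 → ℤ, |(fun i => (ν i : ℝ)) ⬝ᵥ κ - X| < ε ∧ |(fun i => (ν i : ℝ)) ⬝ᵥ c - Y| < ε := by
  set a := crossProduct κ c with ha
  have ea : a 2 = κ 0 * c 1 - κ 1 * c 0 := by
    rw [ha]; simp [crossProduct]
  have ea0 : a 0 = κ 1 * c 2 - κ 2 * c 1 := by
    rw [ha]; simp [crossProduct]
  have ea1 : a 1 = κ 2 * c 0 - κ 0 * c 2 := by
    rw [ha]; simp [crossProduct]
  have ha2 : a 2 ≠ 0 := by
    intro h
    apply hno (Pi.single 2 1) (fun h => by simpa using congrFun h 2)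
    simp [dotProduct, Fin.sum_univ_three, h, Pi.single_apply]
  have hω : ∀ n : Fin 2 → ℤ, ∀ m : ℤ, ∑ i, (n i : ℝ) * (![a 0 / a 2, a 1 / a 2] i) = m → n = 0 := by
    intro n m h
    simp only [Fin.sum_univ_two, Matrix.cons_val_zero, Matrix.cons_val_one] at h
    by_contra hn
    have h1 : (fun i => ((![n 0, n 1, -m] : Fin 3 → ℤ) i : ℝ)) ⬝ᵥ a = 0 := by
      simp only [dotProduct, Fin.sum_univ_three]
      simp
      field_simp at h
      linarith
    refine hno _ (fun h2 => hn ?_) h1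
    funext i
    fin_cases i
    · exact congrFun h2 0
    · exact congrFun h2 1
  set x : ℝ := (X * c 1 - Y * κ 1) / a 2 with hx
  set y : ℝ := (κ 0 * Y - c 0 * X) / a 2 with hy
  set C : ℝ := |κ 0| + |κ 1| + |c 0| + |c 1| + 1 with hC
  have hC0 : 0 < C := by positivity
  obtain ⟨k, m, hm⟩ := near2 hω ![-x, -y] (ε := ε / C) (by positivity)
  have h0 := hm 0
  have h1 := hm 1
  simp only [Matrix.cons_val_zero, Matrix.cons_val_one] at h0 h1
  set e0 := (k:ℝ) * (a 0 / a 2) - m 0 - -x with he0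
  set e1 := (k:ℝ) * (a 1 / a 2) - m 1 - -y with he1
  have m0 : (m 0 : ℝ) = k * (a 0 / a 2) + x - e0 := by rw [he0]; ring
  have m1 : (m 1 : ℝ) = k * (a 1 / a 2) + y - e1 := by rw [he1]; ring
  have bound : ∀ p q : ℝ, |p| + |q| < C → |p * e0 + q * e1| < ε := by
    intro p q hpq
    have hp := abs_nonneg p
    have hq := abs_nonneg q
    calc |p * e0 + q * e1| ≤ |p * e0| + |q * e1| := abs_add_le _ _
      _ = |p| * |e0| + |q| * |e1| := by rw [abs_mul, abs_mul]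
      _ ≤ |p| * (ε / C) + |q| * (ε / C) := by gcongr
      _ = (|p| + |q|) * (ε / C) := by ring
      _ < C * (ε / C) := by
        have : 0 < ε / C := by positivity
        exact mul_lt_mul_of_pos_right hpq this
      _ = ε := by field_simp
  have ev : ∀ v : Fin 3 → ℝ, (fun i => ((![m 0, m 1, (k:ℤ)] : Fin 3 → ℤ) i : ℝ)) ⬝ᵥ v =
      m 0 * v 0 + m 1 * v 1 + k * v 2 := by
    intro v
    simp [dotProduct, Fin.sum_univ_three]
  refine ⟨![m 0, m 1, k], ?_, ?_⟩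
  · have e : (fun i => ((![m 0, m 1, (k:ℤ)] : Fin 3 → ℤ) i : ℝ)) ⬝ᵥ κ - X =
        -(κ 0 * e0 + κ 1 * e1) := by
      rw [ev, m0, m1, hx, hy]
      field_simp
      rw [ea, ea0, ea1]
      ring
    rw [e, abs_neg]
    exact bound _ _ (by rw [hC]; linarith [abs_nonneg (c 0), abs_nonneg (c 1)])
  · have e : (fun i => ((![m 0, m 1, (k:ℤ)] : Fin 3 → ℤ) i : ℝ)) ⬝ᵥ c - Y =
        -(c 0 * e0 + c 1 * e1) := by
      rw [ev, m0, m1, hx, hy]
      field_simp
      rw [ea, ea0, ea1]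
      ring
    rw [e, abs_neg]
    exact bound _ _ (by rw [hC]; linarith [abs_nonneg (κ 0), abs_nonneg (κ 1)])

end Pool.Agent.N665.TT
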