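import Mathlib
import Pool.Agent.N665.TT.Curve
import Pool.Agent.N665.TT.Kron

/-! Long leaves: the plane spanned by `κ` and its derivative contains an integer vector. -/

open scoped Topology ContDiff Manifold
open Set Metric Bundle Matrix Pool.Agent.Helper186 Pool.Agent.H826R2.Wein Pool.Agent.TH607

noncomputable section

namespace Pool.Agent.N665.TT

set_option linter.unusedSectionVars false

universe u v w

lemma plane_mem {κ c v : Fin 3 → ℝ} (hne : crossProduct κ c ≠ 0)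
    (h : v ⬝ᵥ crossProduct κ c = 0) : ∃ α β : ℝ, v = α • κ + β • c := by
  set a := crossProduct κ c with ha
  have haa : a ⬝ᵥ a ≠ 0 := fun h => hne (dotProduct_self_eq_zero.1 h)
  refine ⟨(v ⬝ᵥ crossProduct c a) / (a ⬝ᵥ a), (v ⬝ᵥ crossProduct a κ) / (a ⬝ᵥ a), ?_⟩
  have key : ∀ i, (a ⬝ᵥ a) * v i = (v ⬝ᵥ crossProduct c a) * κ i +
      (v ⬝ᵥ crossProduct a κ) * c i + (v ⬝ᵥ a) * a i := by
    intro i
    rw [ha]
    fin_cases i <;> simp [crossProduct, dotProduct, Fin.sum_univ_three] <;> ring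
  ext i
  have h1 := key i
  rw [h, zero_mul, add_zero] at h1
  simp only [Pi.add_apply, Pi.smul_apply, smul_eq_mul]
  field_simp
  linarith

lemma par_of_orth {κ c w : Fin 3 → ℝ} (hne : crossProduct κ c ≠ 0)
    (h1 : κ ⬝ᵥ w = 0) (h2 : c ⬝ᵥ w = 0) : ∃ μ : ℝ, w = μ • crossProduct κ c := by
  by_cases hw : w = 0
  · exact ⟨0, by rw [hw, zero_smul]⟩
  have hww : w ⬝ᵥ w ≠ 0 := fun h => hw (dotProduct_self_eq_zero.1 h)
  have h := cross_of_orth (p := κ) (q := c) (f := (w ⬝ᵥ w)⁻¹ • w) (k := w)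
    (by rw [dotProduct_smul, h1, smul_zero]) (by rw [dotProduct_smul, h2, smul_zero])
    (by rw [dotProduct_smul, smul_eq_mul, inv_mul_cancel₀ hww])
  have hcw : crossProduct κ c ⬝ᵥ w ≠ 0 := by
    intro h0
    rw [h0, zero_smul] at h
    exact hne h
  refine ⟨(w ⬝ᵥ w) / (crossProduct κ c ⬝ᵥ w), ?_⟩
  set σ := crossProduct κ c ⬝ᵥ w with hσ
  rw [h, smul_smul, smul_smul]
  have : (w ⬝ᵥ w) / σ * (σ * (w ⬝ᵥ w)⁻¹) = 1 := by
    field_simp
  rw [← mul_assoc] at this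
  rw [this, one_smul]

namespace Tor

variable {E : Type u} [NormedAddCommGroup E] [NormedSpace ℝ E] [FiniteDimensional ℝ E]
  {P : Type v} [TopologicalSpace P] [ChartedSpace E P] [IsManifold 𝓘(ℝ, E) ∞ P]
  {Γ : Type w} [Group Γ] [MulAction Γ P] (T : Tor E P Γ)

lemma Br_rv (γ : Γ) (k : Fin 3 → ℤ) :
    (T.Br γ).mulVec (TAct.rv k) = TAct.rv ((T.B γ).mulVec k) := by
  ext i
  simp [Br, TAct.rv, mulVec, dotProduct]

lemma Br_mulVec_ne (γ : Γ) {k : Fin 3 → ℤ} (hk : k ≠ 0) : (T.B γ).mulVec k ≠ 0 := by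
  intro h
  apply hk
  have h1 : (T.B γ⁻¹).mulVec ((T.B γ).mulVec k) = k := by
    rw [Matrix.mulVec_mulVec, ← map_mul, inv_mul_cancel, map_one, Matrix.one_mulVec]
  rw [← h1, h, Matrix.mulVec_zero]

lemma rv_ne {k : Fin 3 → ℤ} (hk : k ≠ 0) : (TAct.rv k : Fin 3 → ℝ) ≠ 0 := by
  intro h
  apply hk
  ext i
  have := congrFun h i
  simpa [TAct.rv] using this

/-- momenta that are large multiples of integer vectors do not occur -/
lemma no_big : ∃ M > (0:ℝ), ∀ (z : P) (s : ℝ) (ν : Fin 3 → ℤ), ν ≠ 0 →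
    T.ph z = s • TAct.rv ν → |s| ≤ M := by
  obtain ⟨M, hM⟩ := (T.𝒟.compact.image T.cont_ph.norm).bddAbove
  refine ⟨max M 1, by positivity, fun z s ν hν h => ?_⟩
  obtain ⟨γ, hγ⟩ := T.𝒟.cover z
  have h1 : ‖T.ph (γ • z)‖ ≤ M := hM ⟨_, hγ, rfl⟩
  -- the transformed vector
  set ν' : Fin 3 → ℤ := ((T.B γ⁻¹)ᵀ).mulVec ν with hν'
  have h2 : T.ph (γ • z) = s • TAct.rv ν' := by
    have h3 := T.ph_smul γ⁻¹ (γ • z)
    rw [inv_smul_smul, h, Matrix.mulVec_smul] at h3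
    rw [h3]
    congr 1
    ext i
    simp [Br, TAct.rv, mulVec, dotProduct, hν']
  have h3 : ν' ≠ 0 := by
    intro h0
    apply hν
    have h4 : ((T.B γ)ᵀ).mulVec ν' = ν := by
      rw [hν', Matrix.mulVec_mulVec, ← Matrix.transpose_mul, ← map_mul, inv_mul_cancel, map_one,
        Matrix.transpose_one, Matrix.one_mulVec]
    rw [← h4, h0, Matrix.mulVec_zero]
  obtain ⟨i, hi⟩ : ∃ i, ν' i ≠ 0 := by
    by_contra hcon
    push Not at hcon
    exact h3 (funext hcon)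
  have h5 : |s| ≤ |T.ph (γ • z) i| := by
    rw [h2]
    show |s| ≤ |s * (ν' i : ℝ)|
    rw [abs_mul]
    have h6 : (1:ℝ) ≤ |(ν' i : ℝ)| := by exact_mod_cast Int.one_le_abs hi
    nlinarith [abs_nonneg s]
  exact (h5.trans ((norm_le_pi_norm (T.ph (γ • z)) i).trans h1)).trans (le_max_left _ _)

section flow

variable [T2Space P] [SigmaCompactSpace P]

lemma leaf_fac {l : Fin 3} {a : Fin 3 → ℝ} {y : P} (ha : a ≠ 0) (hy : y ∈ T.U l)
    (h1 : T.kp y ⬝ᵥ a = 0) (h2 : T.cc l y ⬝ᵥ a = 0) :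
    ∃ b > (0:ℝ), ∀ r, b ≤ T.fac a (T.Fl a y r) := by
  obtain ⟨b, hb, h⟩ := T.exists_fac_bound ha (m := |T.S y l l|)
    (m' := |crossProduct (T.kp y) (T.cc l y) ⬝ᵥ a|) (abs_pos.2 (T.Sll_ne hy))
    (abs_pos.2 (T.cross_a_ne hy ha h1 h2))
  refine ⟨b, hb, fun r => ?_⟩
  obtain ⟨⟨g1, g2, g3, g4⟩, g5⟩ := T.leaf_const hy h1 h2 r
  exact h l _ g1 (by rw [g2]; exact h1) (by rw [g3]; exact h2) (by rw [g5]) (by rw [g2, g3])

lemma tt_tendsto {l : Fin 3} {a : Fin 3 → ℝ} {y : P} (ha : a ≠ 0) (hy : y ∈ T.U l)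
    (h1 : T.kp y ⬝ᵥ a = 0) (h2 : T.cc l y ⬝ᵥ a = 0) :
    Filter.Tendsto (T.tt a y) Filter.atTop Filter.atTop ∧
      Filter.Tendsto (T.tt a y) Filter.atBot Filter.atBot := by
  obtain ⟨b, hb, h⟩ := T.leaf_fac ha hy h1 h2
  constructor
  · refine Filter.tendsto_atTop_mono' _ ?_ (Filter.tendsto_id.const_mul_atTop hb)
    filter_upwards [Filter.eventually_ge_atTop 0] with r hr
    exact T.tt_ge hr fun σ _ => h σ
  · refine Filter.tendsto_atBot_mono' _ ?_ (Filter.tendsto_id.const_mul_atBot hb)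
    filter_upwards [Filter.eventually_le_atBot 0] with r hr
    exact T.tt_le hr fun σ _ => h σ

lemma tt_surj {l : Fin 3} {a : Fin 3 → ℝ} {y : P} (ha : a ≠ 0) (hy : y ∈ T.U l)
    (h1 : T.kp y ⬝ᵥ a = 0) (h2 : T.cc l y ⬝ᵥ a = 0) : Function.Surjective (T.tt a y) := by
  obtain ⟨g1, g2⟩ := T.tt_tendsto ha hy h1 h2
  have hc : Continuous (T.tt a y) :=
    continuous_iff_continuousAt.2 fun r => (T.hasDerivAt_tt a y r).continuousAt
  exact hc.surjective g1 g2

/-- the plane contains an integer vector -/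
theorem exists_int {l : Fin 3} {x : P} (hx : x ∈ T.U l) :
    ∃ w : Fin 3 → ℤ, w ≠ 0 ∧ TAct.rv w ⬝ᵥ crossProduct (T.kp x) (T.cc l x) = 0 := by
  by_contra hno
  push Not at hno
  set a := crossProduct (T.kp x) (T.cc l x) with ha
  have ha0 : a ≠ 0 := T.kp_cc_indep hx
  have e1 : T.kp x ⬝ᵥ a = 0 := dot_self_cross _ _
  have e2 : T.cc l x ⬝ᵥ a = 0 := dot_cross_self _ _
  obtain ⟨M, hM, hbig⟩ := T.no_big
  set X : ℝ → ℝ := fun p => T.kp x ⬝ᵥ T.ph (T.Cv l x p) with hX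
  set Y : ℝ → ℝ := fun p => T.cc l x ⬝ᵥ T.ph (T.Cv l x p) with hY
  have hcont : ∀ v : Fin 3 → ℝ, Continuous fun p => v ⬝ᵥ T.ph (T.Cv l x p) := by
    intro v
    have e : (fun p => v ⬝ᵥ T.ph (T.Cv l x p)) = fun p => ∑ i, v i * T.ph (T.Cv l x p) i := rfl
    rw [e]
    exact continuous_finsetSum _ fun i _ =>
      continuous_const.mul ((T.sm_ph i).continuous.comp (T.cont_Cv l x))
  have hXc : Continuous X := hcont _
  have hYc : Continuous Y := hcont _
  have hX0 : X 0 = 1 := by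
    show T.kp x ⬝ᵥ T.ph (T.Cv l x 0) = 1
    rw [T.Cv_zero]; exact T.kp_ph x
  have hY0 : Y 0 = 0 := by
    show T.cc l x ⬝ᵥ T.ph (T.Cv l x 0) = 0
    rw [T.Cv_zero]; exact T.cc_ph hx
  have hYd : HasDerivAt Y ((T.S x l l)⁻¹ * T.nu l x) 0 := by
    have h := HasDerivAt.fun_sum (u := Finset.univ) (x := (0:ℝ))
      (A := fun (i : Fin 3) p => T.cc l x i * T.ph (T.Cv l x p) i)
      fun i _ => (T.deriv_Cv l x (T.sm_ph i) 0).const_mul (T.cc l x i)
    have h3 : ∀ z : P, z = x → ∑ i, T.cc l x i * dForm 𝓘(ℝ, E) (fun y => T.ph y i) z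
        (T.ι.V (T.kl l) z) = (T.S x l l)⁻¹ * T.nu l x := by
      rintro _ rfl
      exact T.cc_dph hx _
    exact h.congr_deriv (h3 _ (T.Cv_zero l x))
  have hD : (T.S x l l)⁻¹ * T.nu l x ≠ 0 :=
    mul_ne_zero (inv_ne_zero (T.Sll_ne hx)) (T.nu_pos hx).ne'
  set D := (T.S x l l)⁻¹ * T.nu l x with hDdef
  -- choose the width
  have hc0 : Filter.Tendsto (T.Cv l x) (𝓝 0) (𝓝 x) := by
    have := (T.cont_Cv l x).tendsto 0
    rwa [T.Cv_zero] at this
  have ev1 : ∀ᶠ p in 𝓝 (0:ℝ), T.Cv l x p ∈ T.U l := hc0.eventually_mem ((T.isOpen_U l).mem_nhds hx)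
  have ev2 : ∀ᶠ p in 𝓝 (0:ℝ), 1 / 2 < X p := by
    have := hXc.tendsto 0
    rw [hX0] at this
    exact this.eventually_const_lt (by norm_num)
  have ev3 : ∀ᶠ p in 𝓝 (0:ℝ), |Y p - D * p| ≤ |D| / 2 * |p| := by
    have h := hYd.isLittleO.bound (c := |D| / 2) (by positivity)
    filter_upwards [h] with p hp
    rw [hY0] at hp
    simpa [mul_comm] using hp
  obtain ⟨δ, hδ, hball⟩ := Metric.eventually_nhds_iff.1 ((ev1.and ev2).and ev3)
  set d := δ / 2 with hd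
  have hd0 : 0 < d := by positivity
  have hin : ∀ p ∈ Icc (-d) d, dist p 0 < δ := by
    intro p hp
    rw [Real.dist_eq, sub_zero]
    exact lt_of_le_of_lt (abs_le.2 hp) (by rw [hd]; linarith)
  have hU : ∀ p ∈ Icc (-d) d, T.Cv l x p ∈ T.U l := fun p hp => (hball (hin p hp)).1.1
  have hX2 : ∀ p ∈ Icc (-d) d, 1 / 2 < X p := fun p hp => (hball (hin p hp)).1.2
  have hY2 : ∀ p ∈ Icc (-d) d, |Y p - D * p| ≤ |D| / 2 * |p| := fun p hp => (hball (hin p hp)).2
  have hker := T.ker_Cv hd0 hU e1 e2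
  set f : ℝ → ℝ := fun p => D * (Y p / X p) with hf
  have hfc : ContinuousOn f (Icc (-d) d) := by
    intro p hp
    have : X p ≠ 0 := by linarith [hX2 p hp]
    exact (continuousAt_const.mul (hYc.continuousAt.div hXc.continuousAt this)).continuousWithinAt
  have hmd : d ∈ Icc (-d) d := ⟨by linarith, le_rfl⟩
  have hmd' : -d ∈ Icc (-d) d := ⟨le_rfl, by linarith⟩
  have hfd : 0 < f d := by
    have h1 := hY2 d hmd
    rw [abs_of_pos hd0] at h1
    have h2 := hX2 d hmd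
    show 0 < D * (Y d / X d)
    rw [← mul_div_assoc]
    apply div_pos _ (by linarith)
    have h3 : D * Y d = D * (Y d - D * d) + D ^ 2 * d := by ring
    have h4 : |D * (Y d - D * d)| ≤ |D| * (|D| / 2 * d) := by
      rw [abs_mul]; exact mul_le_mul_of_nonneg_left h1 (abs_nonneg _)
    have h5 : |D| * (|D| / 2 * d) = D ^ 2 * d / 2 := by
      rw [← sq_abs D]; ring
    have h6 : 0 < D ^ 2 * d := by positivity
    have h7 := neg_abs_le (D * (Y d - D * d))
    rw [h3]; linarith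
  have hfd' : f (-d) < 0 := by
    have h1 := hY2 (-d) hmd'
    rw [abs_neg, abs_of_pos hd0] at h1
    have h2 := hX2 (-d) hmd'
    show D * (Y (-d) / X (-d)) < 0
    rw [← mul_div_assoc]
    apply div_neg_of_neg_of_pos _ (by linarith)
    have h3 : D * Y (-d) = D * (Y (-d) - D * -d) - D ^ 2 * d := by ring
    have h4 : |D * (Y (-d) - D * -d)| ≤ |D| * (|D| / 2 * d) := by
      rw [abs_mul]; exact mul_le_mul_of_nonneg_left h1 (abs_nonneg _)
    have h5 : |D| * (|D| / 2 * d) = D ^ 2 * d / 2 := by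
      rw [← sq_abs D]; ring
    have h6 : 0 < D ^ 2 * d := by positivity
    have h7 := le_abs_self (D * (Y (-d) - D * -d))
    rw [h3]; linarith
  set η := min (f d) (-f (-d)) with hη
  have hη0 : 0 < η := lt_min hfd (by linarith)
  -- the integer vector
  set X₀ : ℝ := 1 / (4 * (M + 1)) with hX₀
  have hX₀0 : 0 < X₀ := by positivity
  have hDabs : 0 < |D| := abs_pos.2 hD
  obtain ⟨ν, hν1, hν2⟩ := kron3 (κ := T.kp x) (c := T.cc l x) hno X₀ 0
    (ε := min (X₀ / 2) (η * (X₀ / 2) / |D|)) (by positivity)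
  have hν1' := hν1.trans_le (min_le_left _ _)
  have hν2' := hν2.trans_le (min_le_right _ _)
  rw [sub_zero] at hν2'
  set ξ := (fun i => (ν i : ℝ)) ⬝ᵥ T.kp x with hξ
  set ζ := (fun i => (ν i : ℝ)) ⬝ᵥ T.cc l x with hζ
  have hξ1 : X₀ / 2 < ξ := by have := (abs_lt.1 hν1').1; linarith
  have hξ2 : ξ < 3 * X₀ / 2 := by have := (abs_lt.1 hν1').2; linarith
  have hξ0 : 0 < ξ := by linarith
  have hratio : |D * (ζ / ξ)| ≤ η := by
    rw [abs_mul, abs_div, abs_of_pos hξ0]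
    have h1 : |ζ| / ξ ≤ (η * (X₀ / 2) / |D|) / (X₀ / 2) := by
      gcongr
    calc |D| * (|ζ| / ξ) ≤ |D| * ((η * (X₀ / 2) / |D|) / (X₀ / 2)) := by gcongr
      _ = η := by field_simp
  obtain ⟨p, hp, hfp⟩ : D * (ζ / ξ) ∈ f '' Icc (-d) d := by
    apply intermediate_value_Icc (by linarith : -d ≤ d) hfc
    constructor
    · have := (abs_le.1 hratio).1
      have := min_le_right (f d) (-f (-d))
      linarith
    · have := (abs_le.1 hratio).2
      have := min_le_left (f d) (-f (-d))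
      linarith
  have hXp := hX2 p hp
  have hYX : Y p / X p = ζ / ξ := mul_left_cancel₀ hD hfp
  set s := X p / ξ with hs
  -- the difference is a multiple of `a`
  obtain ⟨μ, hμ⟩ := par_of_orth (w := s • TAct.rv ν - T.ph (T.Cv l x p)) ha0
    (by
      rw [dotProduct_sub, dotProduct_smul, dotProduct_comm (T.kp x) (TAct.rv ν)]
      show s * ξ - X p = 0
      rw [hs]; field_simp; ring)
    (by
      rw [dotProduct_sub, dotProduct_smul, dotProduct_comm (T.cc l x) (TAct.rv ν)]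
      show s * ζ - Y p = 0
      have : Y p = ζ / ξ * X p := by rw [← hYX]; field_simp
      rw [this, hs]; ring)
  have hUp := hU p hp
  obtain ⟨k1, k2⟩ := hker p hp
  obtain ⟨r, hr⟩ := T.tt_surj ha0 hUp k1 k2 μ
  have hph := T.leaf_ph hUp k1 k2 r
  rw [hr, ← hμ] at hph
  have hph2 : T.ph (T.Fl a (T.Cv l x p) r) = s • TAct.rv ν := by
    rw [hph]; abel
  have hν0 : ν ≠ 0 := by
    rintro rfl
    have : ξ = 0 := by rw [hξ]; simp
    linarith
  have hs2 := hbig _ _ _ hν0 hph2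
  have hs3 : M < s := by
    rw [hs, lt_div_iff₀ hξ0]
    have h1 : M * ξ ≤ M * (3 * X₀ / 2) := by gcongr
    have h2 : M * (3 * X₀ / 2) < 1 / 2 := by
      rw [hX₀]
      rw [show M * (3 * (1 / (4 * (M + 1))) / 2) = (3 * M) / (8 * (M + 1)) by field_simp; ring]
      rw [div_lt_div_iff₀ (by positivity) (by norm_num)]
      nlinarith
    linarith
  have := le_abs_self s
  linarith

end flow

end Tor

end Pool.Agent.N665.TT
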