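import Mathlib
import Pool.Agent.N665.TT.Lft

/-! Returns of a leaf. -/

open scoped Topology ContDiff Manifold
open Set Metric Bundle Matrix Pool.Agent.Helper186 Pool.Agent.H826R2.Wein Pool.Agent.TH607

noncomputable section

namespace Pool.Agent.N665.TT

set_option linter.unusedSectionVars false

universe u v w

lemma conj_apply (g : Matrix (Fin 3) (Fin 3) ℝ) (S : Matrix (Fin 3) (Fin 3) ℝ)
    {s : ℝ} {c : Fin 3 → ℝ} (hS : ∀ i j, S i j = s * (c i * c j)) (i j : Fin 3) :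
    (g * S * gᵀ) i j = s * (g.mulVec c i * g.mulVec c j) := by
  simp only [Matrix.mul_apply, Matrix.transpose_apply, mulVec, dotProduct, hS,
    Fin.sum_univ_three]
  ring

namespace Tor

variable {E : Type u} [NormedAddCommGroup E] [NormedSpace ℝ E] [FiniteDimensional ℝ E]
  {P : Type v} [TopologicalSpace P] [ChartedSpace E P] [IsManifold 𝓘(ℝ, E) ∞ P]
  {Γ : Type w} [Group Γ] [MulAction Γ P] (T : Tor E P Γ)

lemma ray {l : Fin 3} {y : P} (hy : y ∈ T.U l) {s : ℝ} {u : Fin 3 → ℝ}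
    (h : ∀ i k, T.S y i k = s * (u i * u k)) : u = u l • T.cc l y := by
  have hS := T.Sll_ne hy
  have h1 := h l l
  have hs : s * u l ≠ 0 := by
    intro h0
    apply hS
    rw [h1, ← mul_assoc, h0, zero_mul]
  ext i
  have h2 := h i l
  rw [T.S_apply hy, T.cc_self hy, h1] at h2
  have h3 : (s * u l) * (u i) = (s * u l) * (u l * T.cc l y i) := by linear_combination -h2
  exact mul_left_cancel₀ hs h3

lemma beta_ne {x : P} {w : Fin 3 → ℤ} (hw0 : w ≠ 0) {h₀ β : ℝ} {c : Fin 3 → ℝ}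
    (hwe : TAct.rv w = h₀ • T.kp x + β • c) : β ≠ 0 ∧ c ≠ 0 := by
  have key : TAct.rv w ≠ h₀ • T.kp x := by
    intro h
    have hh : h₀ ≠ 0 := by
      rintro rfl
      rw [zero_smul] at h
      exact rv_ne hw0 h
    refine T.kp_irr x w hw0 h₀⁻¹ ?_
    rw [h, smul_smul, inv_mul_cancel₀ hh, one_smul]
  constructor
  · rintro rfl
    rw [zero_smul, add_zero] at hwe
    exact key hwe
  · rintro rfl
    rw [smul_zero, add_zero] at hwe
    exact key hwe

section flow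

variable [T2Space P] [SigmaCompactSpace P]

/-- integer Hamiltonians of the plane are injective on the transversal -/
lemma H_inj {l : Fin 3} {y : P} {d : ℝ} (hd : 0 < d) (hU : ∀ p ∈ Icc (-d) d, T.Cv l y p ∈ T.U l)
    {k : Fin 3 → ℤ} (hk0 : k ≠ 0)
    (hk : TAct.rv k ⬝ᵥ crossProduct (T.kp y) (T.cc l y) = 0) :
    InjOn (fun s => TAct.rv k ⬝ᵥ T.ph (T.Cv l y s)) (Icc (-d) d) := by
  have hy : y ∈ T.U l := by
    have := hU 0 ⟨by linarith, hd.le⟩
    rwa [T.Cv_zero] at this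
  have ha : crossProduct (T.kp y) (T.cc l y) ≠ 0 := T.kp_cc_indep hy
  have hder : ∀ p ∈ Icc (-d) d, HasDerivAt (fun s => TAct.rv k ⬝ᵥ T.ph (T.Cv l y s))
      (TAct.rv k ⬝ᵥ dv T.ph (T.Cv l y p) (T.ι.V (T.kl l) (T.Cv l y p))) p := by
    intro p _
    exact HasDerivAt.fun_sum fun i _ => (T.deriv_Cv l y (T.sm_ph i) p).const_mul _
  have hnz : ∀ p ∈ Icc (-d) d,
      TAct.rv k ⬝ᵥ dv T.ph (T.Cv l y p) (T.ι.V (T.kl l) (T.Cv l y p)) ≠ 0 := by
    intro p hp h0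
    have hU := hU p hp
    obtain ⟨g1, g2⟩ := T.ker_Cv hd ‹_› (dot_self_cross _ _) (dot_cross_self _ _) p hp
    have hcr : ∃ ρ : ℝ, crossProduct (T.kp (T.Cv l y p)) (T.cc l (T.Cv l y p)) =
        ρ • crossProduct (T.kp y) (T.cc l y) := ⟨_, T.cross_eq ha g1 g2⟩
    obtain ⟨ρ, hρ2⟩ := hcr
    obtain ⟨α, β, hαβ⟩ := plane_mem (T.kp_cc_indep hU) (v := TAct.rv k) (by
      rw [hρ2, dotProduct_smul, hk, smul_zero])
    have hβ := (T.beta_ne hk0 hαβ).1
    rw [hαβ, add_dotProduct, smul_dotProduct, smul_dotProduct, T.kp_dph, T.cc_dph hU,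
      smul_zero, zero_add, smul_eq_mul] at h0
    have hν : T.nu l (T.Cv l y p) ≠ 0 := (T.nu_pos hU).ne'
    rcases mul_eq_zero.1 h0 with h | h
    · exact hβ h
    · rcases mul_eq_zero.1 h with h | h
      · exact absurd h (inv_ne_zero (T.Sll_ne hU))
      · exact absurd h hν
  have key : ∀ p ∈ Icc (-d) d, ∀ q ∈ Icc (-d) d, p < q →
      TAct.rv k ⬝ᵥ T.ph (T.Cv l y p) ≠ TAct.rv k ⬝ᵥ T.ph (T.Cv l y q) := by
    intro p hp q hq hpq heq
    obtain ⟨ξ, hξ, hξ0⟩ := exists_hasDerivAt_eq_zero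
      (f := fun s => TAct.rv k ⬝ᵥ T.ph (T.Cv l y s))
      (f' := fun p => TAct.rv k ⬝ᵥ dv T.ph (T.Cv l y p) (T.ι.V (T.kl l) (T.Cv l y p))) hpq
      (fun r hr => (hder r ⟨by linarith [hr.1, hp.1], by linarith [hr.2, hq.2]⟩
        ).continuousAt.continuousWithinAt)
      heq
      (fun r hr => hder r ⟨by linarith [hr.1, hp.1], by linarith [hr.2, hq.2]⟩)
    exact hnz ξ ⟨by linarith [hξ.1, hp.1], by linarith [hξ.2, hq.2]⟩ hξ0
  intro p hp q hq h
  rcases lt_trichotomy p q with h1 | h1 | h1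
  · exact absurd h (key p hp q hq h1)
  · exact h1
  · exact absurd h.symm (key q hq p hp h1)

/-- near a point the values of `κ` and `c` are those on the transversal -/
lemma near_curve {l : Fin 3} {y : P} (hy : y ∈ T.U l) :
    ∃ d > (0:ℝ), (∀ p ∈ Icc (-d) d, T.Cv l y p ∈ T.U l) ∧
      ∀ᶠ y' in 𝓝 y, y' ∈ T.U l ∧ ∃ p ∈ Icc (-d) d,
        T.kp y' = T.kp (T.Cv l y p) ∧ T.cc l y' = T.cc l (T.Cv l y p) := by
  obtain ⟨I, g, hnf⟩ := T.exists_nf hy
  have hc0 : Filter.Tendsto (T.Cv l y) (𝓝 0) (𝓝 y) := by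
    have := (T.cont_Cv l y).tendsto 0
    rwa [T.Cv_zero] at this
  obtain ⟨δ, hδ, hball⟩ := Metric.eventually_nhds_iff.1 (hc0.eventually hnf)
  set d := δ / 2 with hd
  have hd0 : 0 < d := by positivity
  have hin : ∀ p ∈ Icc (-d) d, T.NF l I g (T.Cv l y p) := by
    intro p hp
    apply hball
    rw [Real.dist_eq, sub_zero]
    exact lt_of_le_of_lt (abs_le.2 hp) (by rw [hd]; linarith)
  have hU : ∀ p ∈ Icc (-d) d, T.Cv l y p ∈ T.U l := fun p hp => (hin p hp).ev.self_of_nhds.1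
  have hmono : StrictMonoOn (fun p => T.kl l (T.Cv l y p)) (Icc (-d) d) := by
    apply strictMonoOn_of_deriv_pos (convex_Icc _ _)
    · exact ((T.sm_kl l).continuous.comp (T.cont_Cv l y)).continuousOn
    · intro p hp
      rw [interior_Icc] at hp
      rw [(T.deriv_Cv l y (T.sm_kl l) p).deriv]
      exact T.nu_pos (hU p (Ioo_subset_Icc_self hp))
  have hmd : d ∈ Icc (-d) d := ⟨by linarith, le_rfl⟩
  have hmd' : -d ∈ Icc (-d) d := ⟨le_rfl, by linarith⟩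
  have hm0 : (0:ℝ) ∈ Icc (-d) d := ⟨by linarith, hd0.le⟩
  have h1 := hmono hmd' hm0 (by linarith)
  have h2 := hmono hm0 hmd hd0
  simp only [T.Cv_zero] at h1 h2
  refine ⟨d, hd0, hU, ?_⟩
  have ev1 : ∀ᶠ y' in 𝓝 y, T.kl l (T.Cv l y (-d)) < T.kl l y' :=
    ((T.sm_kl l).continuous.tendsto y).eventually_const_lt h1
  have ev2 : ∀ᶠ y' in 𝓝 y, T.kl l y' < T.kl l (T.Cv l y d) :=
    ((T.sm_kl l).continuous.tendsto y).eventually_lt_const h2
  filter_upwards [hnf, ev1, ev2] with y' h3 h4 h5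
  refine ⟨h3.ev.self_of_nhds.1, ?_⟩
  obtain ⟨p, hp, hpe⟩ : T.kl l y' ∈ (fun p => T.kl l (T.Cv l y p)) '' Icc (-d) d := by
    apply intermediate_value_Icc (by linarith : -d ≤ d)
      ((T.sm_kl l).continuous.comp (T.cont_Cv l y)).continuousOn
    exact ⟨h4.le, h5.le⟩
  have hpe' : T.kl l (T.Cv l y p) = T.kl l y' := hpe
  have h6 := (hin p hp).ev.self_of_nhds
  have h7 := h3.ev.self_of_nhds
  refine ⟨p, hp, ?_, ?_⟩
  · rw [h7.2.2.1, h6.2.2.1, hpe']
  · rw [h7.2.2.2, h6.2.2.2, hpe']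

/-- the plane is not rational -/
lemma no_rational {l : Fin 3} {x : P} (hx : x ∈ T.U l) {ρ : Fin 3 → ℤ} (hρ0 : ρ ≠ 0) {s : ℝ}
    (hρ : TAct.rv ρ = s • crossProduct (T.kp x) (T.cc l x)) : False := by
  obtain ⟨d, hd, hU, -⟩ := T.near_curve hx
  have hker := T.ker_Cv hd hU (dot_self_cross _ _) (dot_cross_self _ _)
  have ha : crossProduct (T.kp x) (T.cc l x) ≠ 0 := T.kp_cc_indep hx
  have hcurve : ∃ p' ∈ Ioo (-d) d, crossProduct (T.kp (T.Cv l x 0)) (T.kp (T.Cv l x p')) ≠ 0 := by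
    by_contra hcon
    push Not at hcon
    rw [T.Cv_zero] at hcon
    have h5 := T.deriv_kp_Cv (l := l) (x := x) (t := 0) (by rw [T.Cv_zero]; exact hx)
    have h6 := (LinearMap.toContinuousLinearMap
      (crossProduct (T.kp x))).hasFDerivAt.comp_hasDerivAt 0 h5
    have h7 : ((LinearMap.toContinuousLinearMap (crossProduct (T.kp x))) ∘
        fun s => T.kp (T.Cv l x s)) =ᶠ[𝓝 0] fun _ => 0 := by
      filter_upwards [isOpen_Ioo.mem_nhds
        (show (0:ℝ) ∈ Ioo (-d) d from ⟨by linarith, hd⟩)] with p' hp'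
      exact hcon p' hp'
    have h8 := (h6.congr_of_eventuallyEq h7.symm).unique (hasDerivAt_const (0:ℝ) (0 : Fin 3 → ℝ))
    have h9 : crossProduct (T.kp x) (T.nu l (T.Cv l x 0) • T.cc l (T.Cv l x 0)) = 0 := h8
    rw [T.Cv_zero, map_smul] at h9
    exact ha ((smul_eq_zero.1 h9).resolve_left (T.nu_pos hx).ne')
  obtain ⟨p', hp', hp'2⟩ := hcurve
  obtain ⟨t', -, k', hk'0, s', hk'⟩ := Pool.Agent.JobAlg.exists_rational_on_curve
    (f := fun p => T.kp (T.Cv l x p)) (a := -d) (b := d) (p := 0) (q := p')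
    (T.cont_kp.comp (T.cont_Cv l x)).continuousOn ⟨by linarith, hd⟩ hp' hp'2 ρ hρ0
    (fun t ht => by
      have h1 : Pool.Agent.JobAlg.rv ρ = TAct.rv ρ := rfl
      rw [h1, hρ, smul_dotProduct, dotProduct_comm, (hker _ (Ioo_subset_Icc_self ht)).1,
        smul_zero])
  exact T.kp_irr _ k' hk'0 s' hk'

theorem not_mem_U {l : Fin 3} {x : P} : x ∉ T.U l := by
  intro hx
  obtain ⟨w, hw0, hwa⟩ := T.exists_int hx
  set a := crossProduct (T.kp x) (T.cc l x) with ha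
  have ha0 : a ≠ 0 := T.kp_cc_indep hx
  have e1 : T.kp x ⬝ᵥ a = 0 := dot_self_cross _ _
  have e2 : T.cc l x ⬝ᵥ a = 0 := dot_cross_self _ _
  obtain ⟨h₀, β, hwe⟩ := plane_mem ha0 hwa
  have hβ : β ≠ 0 := (T.beta_ne hw0 hwe).1
  have hS0 := T.Sll_ne hx
  have hleaf := fun j : ℕ => T.leaf_const hx e1 e2 (j:ℝ)
  choose γ hγ using fun j : ℕ => T.𝒟.cover (T.Fl a x (j:ℝ))
  set z : ℕ → P := fun j => T.Fl a x (j:ℝ) with hz
  set y : ℕ → P := fun j => γ j • z j with hy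
  set u : ℕ → Fin 3 → ℝ := fun j => (T.Br (γ j)).mulVec (T.cc l x) with hu
  have hkp : ∀ j, T.kp (y j) = (T.Br (γ j)).mulVec (T.kp x) := fun j => by
    show T.kp (γ j • z j) = _
    rw [T.kp_smul, (hleaf j).1.2.1]
  have hSe : ∀ j i k, T.S (y j) i k = T.S x l l * (u j i * u j k) := by
    intro j i k
    show T.S (γ j • z j) i k = _
    rw [T.S_smul, T.leaf_S hx e1 e2]
    exact conj_apply _ _ (T.S_apply hx) i k
  have hBw : ∀ j, TAct.rv ((T.B (γ j)).mulVec w) = h₀ • T.kp (y j) + β • u j := by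
    intro j
    rw [← T.Br_rv, hwe, Matrix.mulVec_add, Matrix.mulVec_smul, Matrix.mulVec_smul, hkp j]
  -- the ultrafilter
  set F : Ultrafilter ℕ := Filter.hyperfilter ℕ with hF
  have hFle : (F : Filter ℕ) ≤ Filter.atTop := Nat.hyperfilter_le_atTop
  have hFy : ∀ᶠ j in (F : Filter ℕ), y j ∈ T.𝒟.D := Filter.Eventually.of_forall hγ
  obtain ⟨y₀, hy₀, hlim⟩ := T.𝒟.compact.ultrafilter_le_nhds (F.map y) (by
    rw [Filter.le_principal_iff]
    exact hFy)
  have hlim : Filter.Tendsto y F (𝓝 y₀) := hlim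
  -- boundedness of `u`
  have hcS : Continuous (fun y => ∑ i, |T.S y i i|) :=
    continuous_finsetSum _ fun i _ => ((T.sm_S i i).continuous).abs
  obtain ⟨C, hC⟩ := (T.𝒟.compact.image hcS).bddAbove
  have hub : ∀ j, u j ∈ closedBall (0 : Fin 3 → ℝ) (Real.sqrt (C / |T.S x l l|)) := by
    intro j
    rw [mem_closedBall_zero_iff, pi_norm_le_iff_of_nonneg (Real.sqrt_nonneg _)]
    intro i
    rw [Real.norm_eq_abs, ← Real.sqrt_sq_eq_abs]
    apply Real.sqrt_le_sqrt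
    rw [le_div_iff₀ (abs_pos.2 hS0)]
    have h1 : |T.S (y j) i i| ≤ C := by
      have h2 : ∑ i, |T.S (y j) i i| ≤ C := hC ⟨_, hγ j, rfl⟩
      exact (Finset.single_le_sum (f := fun i => |T.S (y j) i i|) (fun i _ => abs_nonneg _)
        (Finset.mem_univ i)).trans h2
    rw [hSe, abs_mul, abs_mul_self] at h1
    rw [sq]; linarith
  have hFu : ∀ᶠ j in (F : Filter ℕ), u j ∈ closedBall (0 : Fin 3 → ℝ)
    (Real.sqrt (C / |T.S x l l|)) := Filter.Eventually.of_forall hub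
  obtain ⟨c₀, -, hlimc⟩ := (isCompact_closedBall (0 : Fin 3 → ℝ)
    (Real.sqrt (C / |T.S x l l|))).ultrafilter_le_nhds (F.map u) (by
      rw [Filter.le_principal_iff]
      exact hFu)
  have hlimc : Filter.Tendsto u F (𝓝 c₀) := hlimc
  have hlimk : Filter.Tendsto (fun j => T.kp (y j)) F (𝓝 (T.kp y₀)) :=
    (T.cont_kp.tendsto y₀).comp hlim
  -- the integer vectors are eventually constant
  have hlimw : Filter.Tendsto (fun j => (TAct.rv ((T.B (γ j)).mulVec w) : Fin 3 → ℝ)) F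
      (𝓝 (h₀ • T.kp y₀ + β • c₀)) := by
    simp only [hBw]
    exact (hlimk.const_smul h₀).add (hlimc.const_smul β)
  obtain ⟨w', hw'⟩ : ∃ w' : Fin 3 → ℤ, ∀ᶠ j in (F : Filter ℕ), (T.B (γ j)).mulVec w = w' := by
    have h1 := hlimw.eventually (Metric.ball_mem_nhds _ (by norm_num : (0:ℝ) < 1 / 2))
    obtain ⟨j₀, hj₀⟩ := h1.exists
    refine ⟨(T.B (γ j₀)).mulVec w, ?_⟩
    filter_upwards [h1] with j hj
    ext i
    have h2 := dist_le_pi_dist (TAct.rv ((T.B (γ j)).mulVec w) : Fin 3 → ℝ)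
      (TAct.rv ((T.B (γ j₀)).mulVec w)) i
    have h3 := dist_triangle_right (TAct.rv ((T.B (γ j)).mulVec w) : Fin 3 → ℝ)
      (TAct.rv ((T.B (γ j₀)).mulVec w)) (h₀ • T.kp y₀ + β • c₀)
    have h4 : dist (TAct.rv ((T.B (γ j)).mulVec w) : Fin 3 → ℝ) (h₀ • T.kp y₀ + β • c₀) < 1 / 2 := hj
    have h5 : dist (TAct.rv ((T.B (γ j₀)).mulVec w) : Fin 3 → ℝ) (h₀ • T.kp y₀ + β • c₀) < 1 / 2 :=
      hj₀
    have h6 : |(((T.B (γ j)).mulVec w i : ℤ) : ℝ) - (((T.B (γ j₀)).mulVec w i : ℤ) : ℝ)| < 1 := by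
      have h7 : dist ((TAct.rv ((T.B (γ j)).mulVec w) : Fin 3 → ℝ) i)
        ((TAct.rv ((T.B (γ j₀)).mulVec w) : Fin 3 → ℝ) i) < 1 := by linarith
      exact h7
    have h8 : |(T.B (γ j)).mulVec w i - (T.B (γ j₀)).mulVec w i| < 1 := by exact_mod_cast h6
    have h9 := Int.abs_lt_one_iff.1 h8
    linarith
  have hw'0 : w' ≠ 0 := by
    obtain ⟨j, hj⟩ := hw'.exists
    rw [← hj]
    exact T.Br_mulVec_ne _ hw0
  have hwe' : TAct.rv w' = h₀ • T.kp y₀ + β • c₀ := by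
    refine tendsto_nhds_unique (f := fun j => (TAct.rv ((T.B (γ j)).mulVec w) : Fin 3 → ℝ))
      (l := (F : Filter ℕ)) ?_ hlimw
    refine tendsto_const_nhds.congr' ?_
    filter_upwards [hw'] with j hj
    rw [hj]
  have hc₀ : c₀ ≠ 0 := (T.beta_ne hw'0 hwe').2
  -- the limit tensor
  have hSlim : ∀ i k, T.S y₀ i k = T.S x l l * (c₀ i * c₀ k) := by
    intro i k
    refine tendsto_nhds_unique (f := fun j => T.S (y j) i k) (l := (F : Filter ℕ)) ?_ ?_
    · exact ((T.sm_S i k).continuous.tendsto y₀).comp hlim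
    · simp only [hSe]
      have h1 := fun i => ((continuous_apply i).tendsto c₀).comp hlimc
      exact ((h1 i).mul (h1 k)).const_mul _
  obtain ⟨m, hm⟩ : ∃ m, c₀ m ≠ 0 := by
    by_contra hcon
    push Not at hcon
    exact hc₀ (funext hcon)
  have hy₀U : y₀ ∈ T.U m := by
    rw [T.mem_U_iff, hSlim]
    exact mul_ne_zero hS0 (mul_ne_zero hm hm)
  have hray : c₀ = c₀ m • T.cc m y₀ := T.ray hy₀U hSlim
  obtain ⟨d, hd, hdU, hnear⟩ := T.near_curve hy₀U
  have hw'a : TAct.rv w' ⬝ᵥ crossProduct (T.kp y₀) (T.cc m y₀) = 0 := by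
    rw [hwe', hray, add_dotProduct, smul_dotProduct, smul_dotProduct, smul_dotProduct,
      dot_self_cross, dot_cross_self]
    simp
  have hinj := T.H_inj hd hdU hw'0 hw'a
  -- the good indices
  have hgood : ∀ᶠ j in (F : Filter ℕ), ∃ p ∈ Icc (-d) d, T.kp (y j) = T.kp (T.Cv m y₀ p) ∧
      TAct.rv w' ⬝ᵥ T.ph (T.Cv m y₀ p) = h₀ ∧ (T.B (γ j)).mulVec w = w' := by
    filter_upwards [hw', hlim.eventually hnear] with j hj1 hj2
    obtain ⟨hj3, p, hp, hj4, hj5⟩ := hj2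
    refine ⟨p, hp, hj4, ?_, hj1⟩
    have h1 := T.ray hj3 (hSe j)
    have h2 := hBw j
    rw [hj1, h1, hj4, hj5] at h2
    rw [h2, add_dotProduct, smul_dotProduct, smul_dotProduct, smul_dotProduct, T.kp_ph,
      T.cc_ph (hdU p hp)]
    simp
  obtain ⟨i, pi, hpi, hi1, hi2, hi3⟩ := hgood.exists
  -- unboundedness
  have hne : ∀ᶠ j in (F : Filter ℕ), T.B (γ j) ≠ T.B (γ i) := by
    obtain ⟨i₀, hi₀⟩ : ∃ i, a i ≠ 0 := by
      by_contra hcon
      push Not at hcon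
      exact ha0 (funext hcon)
    have htt := (T.tt_tendsto ha0 hx e1 e2).1.comp tendsto_natCast_atTop_atTop
    have hcont : Continuous (fun z => |((T.Br (γ i))ᵀ.mulVec (T.ph z)) i₀|) := by
      have e : (fun z => |((T.Br (γ i))ᵀ.mulVec (T.ph z)) i₀|) =
        fun z => |∑ k, (T.Br (γ i))ᵀ i₀ k * T.ph z k| := rfl
      rw [e]
      exact (continuous_finsetSum _ fun k _ =>
        continuous_const.mul (T.sm_ph k).continuous).abs
    obtain ⟨C', hC'⟩ := T.𝒟.compact.bddAbove_image hcont.continuousOn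
    have hai : 0 < |a i₀| := abs_pos.2 hi₀
    have h1 := htt.eventually_gt_atTop ((C' + |T.ph x i₀|) / |a i₀|)
    filter_upwards [hFle h1] with j hj hB
    have h2 := hC' ⟨_, hγ j, rfl⟩
    dsimp only at h2
    have h3 := congrFun (T.ph_smul (γ j) (z j)) i₀
    have h4 : T.Br (γ j) = T.Br (γ i) := by
      show (T.B (γ j)).map _ = (T.B (γ i)).map _
      rw [hB]
    rw [h4] at h3
    rw [← h3] at h2
    have h5 : T.ph (z j) = T.ph x + T.tt a x (j:ℝ) • a := T.leaf_ph hx e1 e2 _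
    rw [h5] at h2
    have h6 : |T.tt a x (j:ℝ) * a i₀| ≤ C' + |T.ph x i₀| := by
      have h7 : T.tt a x (j:ℝ) * a i₀ = (T.ph x + T.tt a x (j:ℝ) • a) i₀ - T.ph x i₀ := by
        show _ = (T.ph x i₀ + T.tt a x (j:ℝ) * a i₀) - T.ph x i₀
        ring
      rw [h7]
      exact (abs_sub _ _).trans (add_le_add h2 le_rfl)
    have h8 : (C' + |T.ph x i₀|) / |a i₀| < T.tt a x (j:ℝ) := hj
    rw [div_lt_iff₀ hai] at h8
    rw [abs_mul] at h6
    have h9 := le_abs_self (T.tt a x (j:ℝ))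
    nlinarith
  obtain ⟨j, ⟨pj, hpj, hj1, hj2, hj3⟩, hji⟩ := (hgood.and hne).exists
  have hpp : pj = pi := hinj hpj hpi (hj2.trans hi2.symm)
  have hkk : T.kp (y j) = T.kp (y i) := by rw [hj1, hi1, hpp]
  have huu : u j = u i := by
    have h1 := hBw j
    have h2 := hBw i
    rw [hj3, hkk] at h1
    rw [hi3] at h2
    rw [h2] at h1
    have h3 : β • u j = β • u i := (add_left_cancel h1).symm
    exact smul_right_injective _ hβ h3
  -- the matrix
  set g := T.B ((γ i)⁻¹ * γ j) with hg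
  have hg1 : g ≠ 1 := by
    intro h
    apply hji
    have h1 : T.B (γ i) * T.B ((γ i)⁻¹ * γ j) = T.B (γ j) := by
      rw [← map_mul, mul_inv_cancel_left]
    rw [← h1, ← hg, h, mul_one]
  have hBr : T.Br ((γ i)⁻¹ * γ j) = T.Br (γ i)⁻¹ * T.Br (γ j) := T.Br_mul _ _
  have hfk : (T.Br ((γ i)⁻¹ * γ j)).mulVec (T.kp x) = T.kp x := by
    rw [hBr, ← Matrix.mulVec_mulVec, ← hkp j, hkk, hkp i, Matrix.mulVec_mulVec, T.Br_inv_mul,
      Matrix.one_mulVec]
  have hfc : (T.Br ((γ i)⁻¹ * γ j)).mulVec (T.cc l x) = T.cc l x := by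
    have h1 : (T.Br (γ j)).mulVec (T.cc l x) = (T.Br (γ i)).mulVec (T.cc l x) := huu
    rw [hBr, ← Matrix.mulVec_mulVec, h1, Matrix.mulVec_mulVec, T.Br_inv_mul,
      Matrix.one_mulVec]
  have hfix : ∀ v : Fin 3 → ℝ, v ⬝ᵥ a = 0 → (g.map (Int.cast : ℤ → ℝ)).mulVec v = v := by
    intro v hv
    obtain ⟨α, β', rfl⟩ := plane_mem ha0 hv
    show (T.Br _).mulVec _ = _
    rw [Matrix.mulVec_add, Matrix.mulVec_smul, Matrix.mulVec_smul, hfk, hfc]
  obtain ⟨ρ, hρ0, s, hρ⟩ := Pool.Agent.JobAlg.rational_of_fixed hg1 hfix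
  exact T.no_rational hx hρ0 hρ

end flow

end Tor

end Pool.Agent.N665.TT
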