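import Mathlib
import Pool.Agent.N665.TT.Ret
import Pool.Agent.H826R2.Wein.Bridge

/-! Periodic Reeb orbits for closed contact manifolds with a local three-torus symmetry whose orbits
are invariant under the Reeb flow. -/

open scoped Topology ContDiff Manifold
open Set Metric Bundle Matrix Pool.Agent.Helper186 Pool.Agent.H826R2.Wein Pool.Agent.TH607

noncomputable section

namespace Pool.Agent.N665.TT

set_option linter.unusedSectionVars false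

universe u v w

variable {E : Type u} [NormedAddCommGroup E] [NormedSpace ℝ E] [FiniteDimensional ℝ E]
  {P : Type v} [TopologicalSpace P] [ChartedSpace E P] [IsManifold 𝓘(ℝ, E) ∞ P]
  {Γ : Type w} [Group Γ] [MulAction Γ P]

lemma rv_mulVec {m : ℕ} (C : Matrix (Fin m) (Fin m) ℤ) (k : Fin m → ℤ) :
    (TAct.rv (C.mulVec k) : Fin m → ℝ) = (C.map (Int.cast : ℤ → ℝ)).mulVec (TAct.rv k) := by
  ext i
  simp [TAct.rv, Matrix.mulVec, dotProduct]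

/-- critical points for rank three when the Reeb field is tangent to the orbits -/
theorem exists_crit_tan [T2Space P] [SigmaCompactSpace P] [ConnectedSpace P]
    {β : (x : P) → TangentSpace 𝓘(ℝ, E) x →L[ℝ] ℝ} (hc : IsContact β)
    {R : (x : P) → TangentSpace 𝓘(ℝ, E) x} (hR : IsReeb β R) (A : TAct β 3)
    {n : ℕ} {ι : Imm (E := E) P n} (𝒟 : Deck ι Γ) (hN : A.Norm Γ)
    (hkap : ∀ x, ∃ κ : Fin 3 → ℝ, dForm 𝓘(ℝ, E) (A.H κ) x = 0 ∧ A.H κ x = 1) :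
    ∃ k : Fin 3 → ℤ, k ≠ 0 ∧ ∃ x, dForm 𝓘(ℝ, E) (A.H (TAct.rv k)) x = 0 := by
  by_contra hno
  push Not at hno
  obtain ⟨B, hB⟩ := A.exists_monodromy hc hR 𝒟 hN
  set T : Tor E P Γ := ⟨β, hc, R, hR, A, n, ι, 𝒟, hN, hkap, hno, B, hB⟩ with hT
  have hdk : ∀ (l : Fin 3) (x : P), dForm 𝓘(ℝ, E) (T.kl l) x = 0 := fun l x =>
    T.dkl_zero (fun l => T.not_mem_U) l
  have hconst : ∀ x y : P, T.kp x = T.kp y := by
    intro x y
    ext l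
    exact JobWT.const_of_dForm_zero (T.sm_kl l) (hdk l) x y
  obtain ⟨x₀⟩ : Nonempty P := inferInstance
  have hne : T.kp x₀ ≠ 0 := by
    intro h
    have := T.kp_ph x₀
    rw [h, zero_dotProduct] at this
    exact zero_ne_one this
  obtain ⟨k, hk, hfix⟩ := Pool.Agent.JobAlg.exists_int_fixed (fun γ : Γ => B γ) (T.kp x₀) hne
    (fun γ => by
      have h1 := T.kp_smul γ x₀
      rw [hconst (γ • x₀) x₀] at h1
      exact h1.symm)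
  obtain ⟨k', hk', x, hx⟩ := A.exists_crit_of_finite hc hR 𝒟 hN hk (Set.finite_singleton k)
    (fun γ => ⟨k, rfl, fun x => by
      have h1 := hB γ (TAct.rv k) x
      rw [← rv_mulVec, hfix γ] at h1
      exact h1⟩)
  exact hno k' hk' x hx

section

variable {M : Type*} [TopologicalSpace M] [ChartedSpace E M] [IsManifold 𝓘(ℝ, E) ∞ M]

/-- the chain rule for the orbit map -/
lemma mfderiv_orbit {q : P → M} (hq : RegCover (E := E) q Γ) {m : ℕ}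
    {act : (Fin m → ℝ) → P → P} (hsm : ContMDiff (𝓘(ℝ, Fin m → ℝ).prod 𝓘(ℝ, E)) 𝓘(ℝ, E) ∞
      (fun p : (Fin m → ℝ) × P => act p.1 p.2)) (h0 : ∀ x, act 0 x = x) (x : P)
    (w : Fin m → ℝ) :
    (mfderiv 𝓘(ℝ, Fin m → ℝ) 𝓘(ℝ, E) (fun θ => q (act θ x)) 0 w : E) =
      mfderiv 𝓘(ℝ, E) 𝓘(ℝ, E) q x
        (mfderiv 𝓘(ℝ, Fin m → ℝ) 𝓘(ℝ, E) (fun θ => act θ x) 0 w : E) := by
  have hs : ContMDiff 𝓘(ℝ, Fin m → ℝ) 𝓘(ℝ, E) ∞ (fun θ => act θ x) :=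
    hsm.comp (contMDiff_id.prodMk contMDiff_const)
  have h1 : mfderiv 𝓘(ℝ, Fin m → ℝ) 𝓘(ℝ, E) (q ∘ fun θ => act θ x) 0 =
      (mfderiv 𝓘(ℝ, E) 𝓘(ℝ, E) q (act 0 x)).comp
        (mfderiv 𝓘(ℝ, Fin m → ℝ) 𝓘(ℝ, E) (fun θ => act θ x) 0) :=
    mfderiv_comp _ (hq.mdiff _) (hs.mdifferentiableAt (by simp))
  have h2 : (mfderiv 𝓘(ℝ, Fin m → ℝ) 𝓘(ℝ, E) (fun θ => q (act θ x)) 0 w : E) =
      mfderiv 𝓘(ℝ, E) 𝓘(ℝ, E) q (act 0 x)
        (mfderiv 𝓘(ℝ, Fin m → ℝ) 𝓘(ℝ, E) (fun θ => act θ x) 0 w : E) :=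
    DFunLike.congr_fun h1 w
  rw [h2]
  have h3 : ∀ (z : P), z = x → ∀ u : E, (mfderiv 𝓘(ℝ, E) 𝓘(ℝ, E) q z u : E) =
      mfderiv 𝓘(ℝ, E) 𝓘(ℝ, E) q x u := by
    rintro _ rfl u; rfl
  exact h3 _ (h0 x) _

theorem exists_closed_orbit_tan [T2Space M] [CompactSpace M]
    {α : (x : M) → TangentSpace 𝓘(ℝ, E) x →L[ℝ] ℝ} (hα : IsContact α)
    {R : (x : M) → TangentSpace 𝓘(ℝ, E) x} (hR : IsReeb α R)
    [T2Space P] [SigmaCompactSpace P] [ConnectedSpace P]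
    {q : P → M} (hq : RegCover (E := E) q Γ)
    (A : TAct (pullForm 𝓘(ℝ, E) 𝓘(ℝ, E) q α) 3)
    (hA : ∀ γ : Γ, ∃ B : Matrix (Fin 3) (Fin 3) ℤ, ∀ (θ : Fin 3 → ℝ) (x : P),
      γ • A.act θ x = A.act ((B.map (Int.cast : ℤ → ℝ)).mulVec θ) (γ • x))
    (ht : ∀ x : P, ∃ w : Fin 3 → ℝ,
      (mfderiv 𝓘(ℝ, Fin 3 → ℝ) 𝓘(ℝ, E) (fun θ => q (A.act θ x)) 0 w : E) = R (q x)) :
    ∃ (c : ℝ → M) (T : ℝ), 0 < T ∧ IsMIntegralCurve (I := 𝓘(ℝ, E)) c R ∧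
      ∀ t, c (t + T) = c t := by
  obtain ⟨n, ι, ⟨𝒟⟩⟩ := hq.exists_deck
  have hN : A.Norm Γ := ⟨hq.strict α, hA⟩
  have hcP := hq.isContact_pull hα
  have hRP := hq.isReeb_lift hα hR
  apply hq.closed_proj
  have hkap : ∀ x, ∃ κ : Fin 3 → ℝ, dForm 𝓘(ℝ, E) (A.H κ) x = 0 ∧ A.H κ x = 1 := by
    intro x
    obtain ⟨w, hw⟩ := ht x
    rw [mfderiv_orbit hq A.smooth A.zero x w] at hw
    have hX : A.X w x = liftField hq R x := by
      apply hq.inj x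
      rw [hq.liftField_spec]
      exact hw
    refine ⟨w, ?_, ?_⟩
    · refine ContinuousLinearMap.ext fun u => ?_
      rw [A.dH hcP.smooth, hX, hRP.kernel]
      simp
    · show (pullForm 𝓘(ℝ, E) 𝓘(ℝ, E) q α) x (A.X w x) = 1
      rw [hX, hRP.unit]
  obtain ⟨k, hk, x, hx⟩ := exists_crit_tan hcP hRP A 𝒟 hN hkap
  exact A.closed_of_crit hcP hRP hk hx

end

end Pool.Agent.N665.TT
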