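import Mathlib
import Pool.Agent.TH607.Fx.Stmt

/-! Definitions for statements about torus symmetries with the Reeb field tangent to the orbits. -/

open scoped Topology ContDiff Manifold
open Set Pool.Agent.H826R2.WStmt

noncomputable section

namespace Pool.Agent.N665.TanStmt

variable {E : Type*} [NormedAddCommGroup E] [NormedSpace ℝ E]
  {M : Type*} [TopologicalSpace M] [ChartedSpace E M]
  {P : Type*} [TopologicalSpace P] [ChartedSpace E P]

/-- The vector `R (q x)` is tangent to the image in `M` of the orbit of `x`: it is the derivative of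
`θ ↦ q (θ x)` at `θ = 0` in some direction `w`. -/
def TangentAt (q : P → M) {m : ℕ} (act : (Fin m → ℝ) → P → P) (R : M → E) (x : P) : Prop :=
  ∃ w : Fin m → ℝ, D (E := Fin m → ℝ) (E' := E) (fun θ : Fin m → ℝ => q (act θ x)) 0 w = R (q x)

end Pool.Agent.N665.TanStmt
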