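import Mathlib
import Pool.Agent.N665.TT.Main
import Pool.Agent.N665.TT.Stmt
import Pool.Agent.TH607.Fx.Fin

/-! Reduction of torus symmetries to locally free ones on closed contact submanifolds, with the
Reeb field tangent to the orbits. -/

open scoped Topology ContDiff Manifold
open Set Metric Pool.Agent.Helper186

noncomputable section

namespace Pool.Agent.N665.TT

set_option linter.unusedSectionVars false

universe u v w x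

section tan

open Pool.Agent.TH607 Pool.Agent.H826R2.WStmt

variable {E : Type u} [NormedAddCommGroup E] [NormedSpace ℝ E] [FiniteDimensional ℝ E]
  {M : Type*} [TopologicalSpace M] [ChartedSpace E M] [IsManifold 𝓘(ℝ, E) ∞ M]
  {P : Type*} [TopologicalSpace P] [ChartedSpace E P] [IsManifold 𝓘(ℝ, E) ∞ P]
  {Γ : Type*} [Group Γ] [MulAction Γ P] {q : P → M}
  {α : M → Cov E} {m : ℕ} (A : TS (pullForm 𝓘(ℝ, E) 𝓘(ℝ, E) q (toForm α)) m)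
  [T2Space P] {x₀ : P} {E' : Type*} [NormedAddCommGroup E'] [NormedSpace ℝ E']
  [FiniteDimensional ℝ E']
  (SC : Slices (E := E) E' (A.C0 x₀)) (SM : Slices (E := E) E' (q '' A.C0 x₀))
  [csC : ChartedSpace E' (A.C0 x₀)] (hC : csC = SC.charted)
  [csM : ChartedSpace E' (q '' A.C0 x₀ : Set M)] (hM : csM = SM.charted)
  {r : ℕ} (J : Matrix (Fin m) (Fin r) ℤ) (Q : Matrix (Fin r) (Fin m) ℤ)

include SC hC hM in
lemma tangent_image (hq : H826R2.Wein.RegCover (E := E) q Γ) (hQJ : Q * J = 1)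
    (hQ : ∀ θ : Fin m → ℝ, (Q.map (Int.cast : ℤ → ℝ)).mulVec θ = 0 ↔ θ ∈ A.isoAlg x₀)
    (z : A.C0 x₀) {R' : E'} {w : Fin m → ℝ}
    (hw : (mfderiv 𝓘(ℝ, Fin m → ℝ) 𝓘(ℝ, E) (fun θ => q (A.act θ (z : P))) 0 w : E) =
      A.DvM (E' := E') (A.q' q x₀ z) R') :
    (mfderiv 𝓘(ℝ, Fin r → ℝ) 𝓘(ℝ, E') (fun θ => A.q' q x₀ (A.actT J x₀ θ z)) 0
      ((Q.map (Int.cast : ℤ → ℝ)).mulVec w) : E') = R' := by
  set κ : Fin r → ℝ := (Q.map (Int.cast : ℤ → ℝ)).mulVec w with hκ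
  have hf : ContMDiff 𝓘(ℝ, Fin r → ℝ) 𝓘(ℝ, E') ∞ (fun θ => A.q' q x₀ (A.actT J x₀ θ z)) :=
    (A.smooth_q' SC SM hC hM hq).comp
      ((A.smooth_actT SC hC J).comp (contMDiff_id.prodMk contMDiff_const))
  have h1 : HasMFDerivAt 𝓘(ℝ, Fin r → ℝ) 𝓘(ℝ, E') (fun θ => A.q' q x₀ (A.actT J x₀ θ z)) 0
      (mfderiv 𝓘(ℝ, Fin r → ℝ) 𝓘(ℝ, E') (fun θ => A.q' q x₀ (A.actT J x₀ θ z)) 0) :=
    (hf.mdifferentiableAt (by simp)).hasMFDerivAt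
  have h2 : HasMFDerivAt 𝓘(ℝ, E') 𝓘(ℝ, E) (Subtype.val : (q '' A.C0 x₀ : Set M) → M)
      (A.q' q x₀ (A.actT J x₀ 0 z))
      (mfderiv 𝓘(ℝ, E') 𝓘(ℝ, E) (Subtype.val : (q '' A.C0 x₀ : Set M) → M)
        (A.q' q x₀ (A.actT J x₀ 0 z))) :=
    ((SM.val hM).mdifferentiableAt (by simp)).hasMFDerivAt
  have h3 := HasMFDerivAt.comp (0 : Fin r → ℝ) h2 h1
  have h4 : HasMFDerivAt 𝓘(ℝ, Fin r → ℝ) 𝓘(ℝ, Fin m → ℝ) (TS.JL J) 0 (TS.JL J) :=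
    ((TS.JL J).hasFDerivAt).hasMFDerivAt
  have h5 : HasMFDerivAt 𝓘(ℝ, Fin m → ℝ) 𝓘(ℝ, E) (fun θ => q (A.act θ (z : P))) (TS.JL J 0)
      (mfderiv 𝓘(ℝ, Fin m → ℝ) 𝓘(ℝ, E) (fun θ => q (A.act θ (z : P))) (TS.JL J 0)) := by
    have h : ContMDiff 𝓘(ℝ, Fin m → ℝ) 𝓘(ℝ, E) ∞ (fun θ => q (A.act θ (z : P))) :=
      hq.contMDiff.comp (A.smooth_left _)
    exact (h.mdifferentiableAt (by simp)).hasMFDerivAt
  have h6 := HasMFDerivAt.comp (0 : Fin r → ℝ) h5 h4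
  have h7 := DFunLike.congr_fun (hasMFDerivAt_unique h3 h6) κ
  have h8 : (mfderiv 𝓘(ℝ, E') 𝓘(ℝ, E) (Subtype.val : (q '' A.C0 x₀ : Set M) → M)
        (A.q' q x₀ (A.actT J x₀ 0 z))
      (mfderiv 𝓘(ℝ, Fin r → ℝ) 𝓘(ℝ, E') (fun θ => A.q' q x₀ (A.actT J x₀ θ z)) 0 κ : E') : E) =
      (mfderiv 𝓘(ℝ, Fin m → ℝ) 𝓘(ℝ, E) (fun θ => q (A.act θ (z : P))) (TS.JL J 0)
        (TS.JL J κ) : E) := h7
  have h9 : A.actT J x₀ 0 z = z := by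
    apply Subtype.ext
    show A.act (TS.JL J 0) z = z
    rw [map_zero, A.zero]
  have h10 : ∀ (y : A.C0 x₀), y = z → ∀ u : E',
      (mfderiv 𝓘(ℝ, E') 𝓘(ℝ, E) (Subtype.val : (q '' A.C0 x₀ : Set M) → M)
        (A.q' q x₀ y) u : E) = A.DvM (E' := E') (A.q' q x₀ z) u := by
    rintro _ rfl u; rfl
  have h11 : ∀ (η : Fin m → ℝ), η = 0 → ∀ u : Fin m → ℝ,
      (mfderiv 𝓘(ℝ, Fin m → ℝ) 𝓘(ℝ, E) (fun θ => q (A.act θ (z : P))) η u : E) =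
      (mfderiv 𝓘(ℝ, Fin m → ℝ) 𝓘(ℝ, E) (fun θ => q (A.act θ (z : P))) 0 u : E) := by
    rintro _ rfl u; rfl
  rw [h10 _ h9, h11 _ (map_zero (TS.JL J))] at h8
  apply SM.inj hM (A.q' q x₀ z)
  refine h8.trans (Eq.trans ?_ hw)
  -- the class modulo the isotropy algebra
  have h12 : w - TS.JL J κ ∈ A.isoAlg x₀ := by
    rw [← hQ, TS.JL_apply, Matrix.mulVec_sub, Matrix.mulVec_mulVec]
    have h14 : Q.map (Int.cast : ℤ → ℝ) * J.map (Int.cast : ℤ → ℝ) = 1 := by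
      rw [← mapZ_mul, hQJ]
      ext i j
      simp [Matrix.one_apply]
    rw [h14, Matrix.one_mulVec, hκ, sub_self]
  have h13 : A.X (w - TS.JL J κ) (z : P) = 0 :=
    A.mem_isoAlg.1 (A.mem_Fix_iff.1 (A.C0_subset z.2) h12)
  have h14 := mfderiv_orbit hq A.smooth A.zero (z : P) (w - TS.JL J κ)
  have h15 : (mfderiv 𝓘(ℝ, Fin m → ℝ) 𝓘(ℝ, E) (fun θ => A.act θ (z : P)) 0
      (w - TS.JL J κ) : E) = 0 := h13
  have h15' : (mfderiv 𝓘(ℝ, Fin m → ℝ) 𝓘(ℝ, E) (fun θ => q (A.act θ (z : P))) 0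
      (w - TS.JL J κ) : E) = 0 :=
    h14.trans ((congrArg (fun v : E => (mfderiv 𝓘(ℝ, E) 𝓘(ℝ, E) q (z : P) v : E)) h15).trans
      (map_zero (mfderiv 𝓘(ℝ, E) 𝓘(ℝ, E) q (z : P))))
  set L : (Fin m → ℝ) →L[ℝ] E :=
    mfderiv 𝓘(ℝ, Fin m → ℝ) 𝓘(ℝ, E) (fun θ => q (A.act θ (z : P))) 0 with hL
  have h16 : L (w - TS.JL J κ) = 0 := h15'
  rw [map_sub] at h16
  exact (sub_eq_zero.1 h16).symm

end tan

end Pool.Agent.N665.TT
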